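import Mathlib

/-!
# No three preperiodic points of `z ^ 2 + z` sum to one

We conjugate to `g w = w ^ 2 + 1 / 4` and show, by a subdivision of the square `[0, 5/4] ^ 2`
checked by the kernel, that every point `x + i y` with bounded `g`-orbit has
`4 x - |y| < 3.04` and `4 x + |y| < 3.92`.
-/

set_option autoImplicit false

open Complex

namespace Pool.Agent.Results.MP_a37635_nt.NoSumOne

/-- The map `z ^ 2 + z` on the algebraic closure of the rationals. -/
noncomputable def f (z : AlgebraicClosure ℚ) : AlgebraicClosure ℚ := z ^ 2 + z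

/-- `x` is preperiodic: its forward orbit is finite. -/
def Preperiodic (x : AlgebraicClosure ℚ) : Prop := (Set.range fun n : ℕ => f^[n] x).Finite

/-! ### Interval computations (coordinates scaled by `2 ^ 20`) -/

/-- The scale. -/
def S : ℤ := 1048576

/-- Lower bound of the square. -/
def sqLo (a b : ℤ) : ℤ := if 0 ≤ a then a * a else if b ≤ 0 then b * b else 0

/-- Upper bound of the square. -/
def sqHi (a b : ℤ) : ℤ := if a * a ≤ b * b then b * b else a * a

/-- The minimum of two integers. -/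
def mn (a b : ℤ) : ℤ := if a ≤ b then a else b

/-- The maximum of two integers. -/
def mx (a b : ℤ) : ℤ := if a ≤ b then b else a

/-- The box is at distance at least `5 / 4` from the origin, or is mapped to such a box. -/
def esc : ℕ → ℤ → ℤ → ℤ → ℤ → Bool
  | 0, a, b, c, d => decide (1717986918400 ≤ sqLo a b + sqLo c d)
  | k + 1, a, b, c, d => decide (1717986918400 ≤ sqLo a b + sqLo c d) ||
      esc k ((sqLo a b - sqHi c d) / 1048576 + 262144)
        ((sqHi a b - sqLo c d) / 1048576 + 1 + 262144)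
        ((2 * mn (mn (a * c) (a * d)) (mn (b * c) (b * d))) / 1048576)
        ((2 * mx (mx (a * c) (a * d)) (mx (b * c) (b * d))) / 1048576 + 1)

/-- The part of the box in the region `4 x - y ≥ 3.04` or `4 x + y ≥ 3.92` escapes. -/
def cover : ℕ → ℤ → ℤ → ℤ → ℤ → Bool
  | 0, a, b, c, d => (decide (4 * b - c < 3187671) && decide (4 * b + d < 4110417)) ||
      esc 6 a b c d
  | n + 1, a, b, c, d => (decide (4 * b - c < 3187671) && decide (4 * b + d < 4110417)) ||
      (esc 6 a b c d || (cover n a ((a + b) / 2) c ((c + d) / 2) &&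
        (cover n ((a + b) / 2) b c ((c + d) / 2) &&
          (cover n a ((a + b) / 2) ((c + d) / 2) d &&
            cover n ((a + b) / 2) b ((c + d) / 2) d))))

set_option maxRecDepth 100000 in
theorem cover_true : cover 10 0 1310720 0 1310720 = true := by
  decide +kernel

/-! ### Soundness -/

/-- `a / 2 ^ 20 ≤ x ≤ b / 2 ^ 20`. -/
def Mem (a b : ℤ) (x : ℝ) : Prop := (a : ℝ) ≤ 1048576 * x ∧ 1048576 * x ≤ b

lemma sqLo_le {a b : ℤ} {x : ℝ} (h : Mem a b x) : (sqLo a b : ℝ) ≤ 1048576 ^ 2 * x ^ 2 := by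
  obtain ⟨h1, h2⟩ := h
  unfold sqLo
  split_ifs with h3 h4
  · have h3' : (0 : ℝ) ≤ a := by exact_mod_cast h3
    push_cast
    nlinarith
  · have h4' : (b : ℝ) ≤ 0 := by exact_mod_cast h4
    push_cast
    nlinarith
  · push_cast
    positivity

lemma le_sqHi {a b : ℤ} {x : ℝ} (h : Mem a b x) : 1048576 ^ 2 * x ^ 2 ≤ (sqHi a b : ℝ) := by
  obtain ⟨h1, h2⟩ := h
  have ha : (a : ℝ) * a ≤ sqHi a b := by
    unfold sqHi
    split_ifs with h3
    · exact_mod_cast h3
    · push_cast; exact le_refl _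
  have hb : (b : ℝ) * b ≤ sqHi a b := by
    unfold sqHi
    split_ifs with h3
    · push_cast; exact le_refl _
    · push Not at h3
      exact_mod_cast h3.le
  rcases le_total 0 x with hx | hx
  · nlinarith
  · nlinarith

lemma mn_le_left (a b : ℤ) : mn a b ≤ a := by
  unfold mn; split_ifs <;> omega

lemma mn_le_right (a b : ℤ) : mn a b ≤ b := by
  unfold mn; split_ifs <;> omega

lemma le_mx_left (a b : ℤ) : a ≤ mx a b := by
  unfold mx; split_ifs <;> omega

lemma le_mx_right (a b : ℤ) : b ≤ mx a b := by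
  unfold mx; split_ifs <;> omega

/-- A product of two numbers in intervals. -/
lemma prod_bound {a b c d u v L U : ℝ} (h1 : a ≤ u) (h2 : u ≤ b) (h3 : c ≤ v) (h4 : v ≤ d)
    (l1 : L ≤ a * c) (l2 : L ≤ a * d) (l3 : L ≤ b * c) (l4 : L ≤ b * d)
    (u1 : a * c ≤ U) (u2 : a * d ≤ U) (u3 : b * c ≤ U) (u4 : b * d ≤ U) :
    L ≤ u * v ∧ u * v ≤ U := by
  have ha : L ≤ a * v ∧ a * v ≤ U := by
    rcases le_total 0 a with h | h
    · constructor <;> nlinarith
    · constructor <;> nlinarith
  have hb : L ≤ b * v ∧ b * v ≤ U := by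
    rcases le_total 0 b with h | h
    · constructor <;> nlinarith
    · constructor <;> nlinarith
  rcases le_total 0 v with h | h
  · constructor <;> nlinarith [ha.1, ha.2, hb.1, hb.2]
  · constructor <;> nlinarith [ha.1, ha.2, hb.1, hb.2]

lemma cast_div_le (m : ℤ) : ((m / 1048576 : ℤ) : ℝ) * 1048576 ≤ m := by
  have : m / 1048576 * 1048576 ≤ m := Int.ediv_mul_le m (by norm_num)
  exact_mod_cast this

lemma le_cast_div (m : ℤ) : (m : ℝ) ≤ ((m / 1048576 : ℤ) : ℝ) * 1048576 + 1048576 := by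
  have : m < (m / 1048576 + 1) * 1048576 := Int.lt_ediv_add_one_mul_self m (by norm_num)
  have h : (m : ℝ) ≤ ((((m / 1048576 : ℤ) + 1) * 1048576 : ℤ) : ℝ) := by exact_mod_cast this.le
  push_cast at h ⊢
  linarith

/-- The conjugated map. -/
noncomputable def g (w : ℂ) : ℂ := w ^ 2 + 1 / 4

lemma g_re (w : ℂ) : (g w).re = w.re ^ 2 - w.im ^ 2 + 1 / 4 := by
  have : (1 / 4 : ℂ) = ((1 / 4 : ℝ) : ℂ) := by push_cast; ring
  rw [g, this, add_re, ofReal_re, pow_two, mul_re]
  ring

lemma g_im (w : ℂ) : (g w).im = 2 * (w.re * w.im) := by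
  have : (1 / 4 : ℂ) = ((1 / 4 : ℝ) : ℂ) := by push_cast; ring
  rw [g, this, add_im, ofReal_im, pow_two, mul_im]
  ring

lemma esc_sound (k : ℕ) : ∀ (a b c d : ℤ) (w : ℂ), esc k a b c d = true → Mem a b w.re →
    Mem c d w.im → ∃ j : ℕ, 5 / 4 ≤ ‖g^[j] w‖ := by
  have base : ∀ (a b c d : ℤ) (w : ℂ), 1717986918400 ≤ sqLo a b + sqLo c d → Mem a b w.re →
      Mem c d w.im → ∃ j : ℕ, 5 / 4 ≤ ‖g^[j] w‖ := by
    intro a b c d w h hx hy
    refine ⟨0, ?_⟩
    have h1 := sqLo_le hx
    have h2 := sqLo_le hy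
    have h3 : (1717986918400 : ℝ) ≤ sqLo a b + sqLo c d := by exact_mod_cast h
    have h4 : ‖w‖ ^ 2 = w.re ^ 2 + w.im ^ 2 := by
      rw [← normSq_eq_norm_sq, normSq_apply]; ring
    simp only [Function.iterate_zero, id_eq]
    have h5 : (5 / 4 : ℝ) ^ 2 ≤ ‖w‖ ^ 2 := by
      rw [h4]; nlinarith
    exact le_of_sq_le_sq h5 (norm_nonneg _)
  induction k with
  | zero =>
    intro a b c d w h hx hy
    simp only [esc, decide_eq_true_eq] at h
    exact base a b c d w h hx hy
  | succ k ih =>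
    intro a b c d w h hx hy
    simp only [esc, Bool.or_eq_true, decide_eq_true_eq] at h
    rcases h with h | h
    · exact base a b c d w h hx hy
    · obtain ⟨j, hj⟩ := ih _ _ _ _ (g w) h (by
        have l1 := sqLo_le hx
        have l2 := sqLo_le hy
        have l3 := le_sqHi hx
        have l4 := le_sqHi hy
        have l5 := cast_div_le (sqLo a b - sqHi c d)
        have l6 := le_cast_div (sqHi a b - sqLo c d)
        rw [Mem, g_re]
        push_cast at l5 l6 ⊢
        constructor <;> nlinarith) (by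
        have e1 := mn_le_left (mn (a * c) (a * d)) (mn (b * c) (b * d))
        have e2 := mn_le_right (mn (a * c) (a * d)) (mn (b * c) (b * d))
        have e3 := mn_le_left (a * c) (a * d)
        have e4 := mn_le_right (a * c) (a * d)
        have e5 := mn_le_left (b * c) (b * d)
        have e6 := mn_le_right (b * c) (b * d)
        have f1 := le_mx_left (mx (a * c) (a * d)) (mx (b * c) (b * d))
        have f2 := le_mx_right (mx (a * c) (a * d)) (mx (b * c) (b * d))
        have f3 := le_mx_left (a * c) (a * d)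
        have f4 := le_mx_right (a * c) (a * d)
        have f5 := le_mx_left (b * c) (b * d)
        have f6 := le_mx_right (b * c) (b * d)
        set L := mn (mn (a * c) (a * d)) (mn (b * c) (b * d)) with hL
        set U := mx (mx (a * c) (a * d)) (mx (b * c) (b * d)) with hU
        have key := prod_bound (L := (L : ℝ)) (U := (U : ℝ)) hx.1 hx.2 hy.1 hy.2
          (by exact_mod_cast e1.trans e3) (by exact_mod_cast e1.trans e4)
          (by exact_mod_cast e2.trans e5) (by exact_mod_cast e2.trans e6)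
          (by exact_mod_cast f3.trans f1) (by exact_mod_cast f4.trans f1)
          (by exact_mod_cast f5.trans f2) (by exact_mod_cast f6.trans f2)
        have l5 := cast_div_le (2 * L)
        have l6 := le_cast_div (2 * U)
        rw [Mem, g_im]
        push_cast at l5 l6 ⊢
        constructor <;> nlinarith [key.1, key.2])
      exact ⟨j + 1, hj⟩

lemma cover_sound (n : ℕ) : ∀ (a b c d : ℤ) (w : ℂ), cover n a b c d = true → Mem a b w.re →
    Mem c d w.im → (∀ j : ℕ, ‖g^[j] w‖ < 5 / 4) →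
    4 * w.re - w.im < 3.04 ∧ 4 * w.re + w.im < 3.92 := by
  have base1 : ∀ (a b c d : ℤ) (w : ℂ), 4 * b - c < 3187671 → 4 * b + d < 4110417 →
      Mem a b w.re → Mem c d w.im → 4 * w.re - w.im < 3.04 ∧ 4 * w.re + w.im < 3.92 := by
    intro a b c d w h1 h2 hx hy
    have h1' : (4 * b - c : ℝ) < 3187671 := by exact_mod_cast h1
    have h2' : (4 * b + d : ℝ) < 4110417 := by exact_mod_cast h2
    obtain ⟨hx1, hx2⟩ := hx
    obtain ⟨hy1, hy2⟩ := hy
    constructor <;> norm_num <;> linarith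
  have base2 : ∀ (k : ℕ) (a b c d : ℤ) (w : ℂ), esc k a b c d = true →
      Mem a b w.re → Mem c d w.im → (∀ j : ℕ, ‖g^[j] w‖ < 5 / 4) → False := by
    intro k a b c d w h hx hy hb
    obtain ⟨j, hj⟩ := esc_sound k a b c d w h hx hy
    exact absurd (hb j) (not_lt.mpr hj)
  induction n with
  | zero =>
    intro a b c d w h hx hy hb
    simp only [cover, Bool.or_eq_true, Bool.and_eq_true, decide_eq_true_eq] at h
    rcases h with ⟨h1, h2⟩ | h
    · exact base1 a b c d w h1 h2 hx hy
    · exact (base2 _ a b c d w h hx hy hb).elim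
  | succ n ih =>
    intro a b c d w h hx hy hb
    simp only [cover, Bool.or_eq_true, Bool.and_eq_true, decide_eq_true_eq] at h
    rcases h with ⟨h1, h2⟩ | h | ⟨h1, h2, h3, h4⟩
    · exact base1 a b c d w h1 h2 hx hy
    · exact (base2 _ a b c d w h hx hy hb).elim
    · rcases le_total (1048576 * w.re) (((a + b) / 2 : ℤ) : ℝ) with hm | hm
      · rcases le_total (1048576 * w.im) (((c + d) / 2 : ℤ) : ℝ) with hp | hp
        · exact ih _ _ _ _ w h1 ⟨hx.1, hm⟩ ⟨hy.1, hp⟩ hb
        · exact ih _ _ _ _ w h3 ⟨hx.1, hm⟩ ⟨hp, hy.2⟩ hb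
      · rcases le_total (1048576 * w.im) (((c + d) / 2 : ℤ) : ℝ) with hp | hp
        · exact ih _ _ _ _ w h2 ⟨hm, hx.2⟩ ⟨hy.1, hp⟩ hb
        · exact ih _ _ _ _ w h4 ⟨hm, hx.2⟩ ⟨hp, hy.2⟩ hb

lemma upper {w : ℂ} (h0 : 0 ≤ w.im) (hb : ∀ j : ℕ, ‖g^[j] w‖ < 5 / 4) :
    4 * w.re - w.im < 3.04 ∧ 4 * w.re + w.im < 3.92 := by
  have hn : ‖w‖ < 5 / 4 := hb 0
  have h1 : w.re < 5 / 4 := (re_le_norm w).trans_lt hn
  have h2 : w.im < 5 / 4 := ((le_abs_self _).trans (abs_im_le_norm w)).trans_lt hn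
  rcases le_total 0 w.re with h | h
  · exact cover_sound 10 0 1310720 0 1310720 w cover_true
      ⟨by push_cast; linarith, by push_cast; linarith⟩
      ⟨by push_cast; linarith, by push_cast; linarith⟩ hb
  · constructor <;> norm_num <;> linarith

lemma g_conj (w : ℂ) : g (starRingEnd ℂ w) = starRingEnd ℂ (g w) := by
  simp only [g, map_add, map_pow, map_div₀, map_one]
  congr 1
  rw [map_ofNat]

lemma iter_conj (w : ℂ) (j : ℕ) : g^[j] (starRingEnd ℂ w) = starRingEnd ℂ (g^[j] w) := by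
  induction j with
  | zero => rfl
  | succ j ih => rw [Function.iterate_succ_apply', Function.iterate_succ_apply', ih, g_conj]

/-- The bounds for all points with bounded orbit. -/
lemma bounds {w : ℂ} (hb : ∀ j : ℕ, ‖g^[j] w‖ < 5 / 4) :
    4 * w.re - |w.im| < 3.04 ∧ 4 * w.re + |w.im| < 3.92 := by
  rcases le_total 0 w.im with h | h
  · rw [abs_of_nonneg h]; exact upper h hb
  · rw [abs_of_nonpos h]
    have := upper (w := starRingEnd ℂ w) (by rw [conj_im]; linarith)
      (fun j => by rw [iter_conj, norm_conj]; exact hb j)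
    rwa [conj_re, conj_im] at this

lemma norm_g {w : ℂ} (h : 5 / 4 ≤ ‖w‖) : ‖w‖ + 1 / 16 ≤ ‖g w‖ := by
  have h1 : ‖w ^ 2‖ ≤ ‖g w‖ + 1 / 4 := by
    have : w ^ 2 = g w - 1 / 4 := by rw [g]; ring
    rw [this]
    refine (norm_sub_le _ _).trans ?_
    norm_num
  rw [norm_pow] at h1
  nlinarith

lemma escape {w : ℂ} (h : 5 / 4 ≤ ‖w‖) (k : ℕ) : ‖w‖ + k / 16 ≤ ‖g^[k] w‖ := by
  induction k with
  | zero => simp
  | succ k ih =>
    rw [Function.iterate_succ_apply']
    have hk : (0 : ℝ) ≤ k := Nat.cast_nonneg k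
    have := norm_g (w := g^[k] w) (by linarith)
    push_cast
    linarith

lemma orbit_bound {w : ℂ} (h : (Set.range fun n : ℕ => g^[n] w).Finite) (j : ℕ) :
    ‖g^[j] w‖ < 5 / 4 := by
  by_contra hj
  push Not at hj
  obtain ⟨B, hB⟩ := h.isBounded.exists_norm_le
  obtain ⟨k, hk⟩ := exists_nat_gt (16 * B)
  have h1 := escape hj k
  have h2 : ‖g^[k] (g^[j] w)‖ ≤ B := by
    rw [← Function.iterate_add_apply]
    exact hB _ ⟨k + j, rfl⟩
  linarith

/-- Embed into the complex numbers. -/
noncomputable def φ : AlgebraicClosure ℚ →ₐ[ℚ] ℂ :=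
  haveI : Algebra.IsAlgebraic ℚ (AlgebraicClosure ℚ) := AlgebraicClosure.isAlgebraic ℚ
  IsAlgClosed.lift

lemma φ_iter (x : AlgebraicClosure ℚ) (n : ℕ) : g^[n] (φ x + 1 / 2) = φ (f^[n] x) + 1 / 2 := by
  induction n with
  | zero => rfl
  | succ n ih =>
    rw [Function.iterate_succ_apply', Function.iterate_succ_apply', ih, f, g, map_add, map_pow]
    ring

lemma bounds' {x : AlgebraicClosure ℚ} (h : Preperiodic x) :
    4 * (φ x + 1 / 2).re - |(φ x + 1 / 2).im| < 3.04 ∧
      4 * (φ x + 1 / 2).re + |(φ x + 1 / 2).im| < 3.92 := by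
  refine bounds (orbit_bound ?_)
  have : (fun n : ℕ => g^[n] (φ x + 1 / 2)) = (fun y => φ y + 1 / 2) ∘ fun n : ℕ => f^[n] x := by
    funext n
    exact φ_iter x n
  rw [this, Set.range_comp]
  exact h.image _

/-- There are no preperiodic points `a`, `b`, `c` of `z ^ 2 + z` with `a + b + c = 1`. -/
theorem result : ∀ a b c : AlgebraicClosure ℚ, Preperiodic a → Preperiodic b → Preperiodic c →
    a + b + c ≠ 1 := by
  intro a b c ha hb hc h
  have h' : φ a + φ b + φ c = 1 := by rw [← map_add, ← map_add, h, map_one]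
  obtain ⟨a1, a2⟩ := bounds' ha
  obtain ⟨b1, b2⟩ := bounds' hb
  obtain ⟨c1, c2⟩ := bounds' hc
  set u := φ a + 1 / 2 with hu
  set v := φ b + 1 / 2 with hv
  set w := φ c + 1 / 2 with hw
  have hs : u + v + w = ((5 / 2 : ℝ) : ℂ) := by
    rw [hu, hv, hw]; push_cast; linear_combination h'
  have hre : u.re + v.re + w.re = 5 / 2 := by
    have := congrArg re hs
    rwa [add_re, add_re, ofReal_re] at this
  have him : u.im + v.im + w.im = 0 := by
    have := congrArg im hs
    rwa [add_im, add_im, ofReal_im] at this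
  norm_num at a1 a2 b1 b2 c1 c2
  rcases le_total 0 u.im with h1 | h1 <;> rcases le_total 0 v.im with h2 | h2 <;>
    rcases le_total 0 w.im with h3 | h3 <;>
    simp only [abs_of_nonneg, abs_of_nonpos, h1, h2, h3] at a1 a2 b1 b2 c1 c2 <;> linarith

end Pool.Agent.Results.MP_a37635_nt.NoSumOne
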